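import Pool.Agent.X3.CCEx

/-!
MP_c9564b_pr, Q1: `E T_{k₂} ≤ E T_K ≤ E T_{k₁}` for `1 ≤ k₁ < k₂ ≤ n / 2` and `K` with values
`k₁` (probability `p`) and `k₂` (probability `1 - p`).
-/

set_option autoImplicit false

namespace Pool.Agent.Results.MP_c9564b_pr.MonotoneRecovery

open Pool.Agent.X3.CC MeasureTheory
open scoped ENNReal

theorem result :
    ∀ (C L : Type) [Fintype C] [DecidableEq C] [DecidableEq L] (σ : C ≃ L) (k₁ k₂ : ℕ) (p : ℝ),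
      1 ≤ k₁ → k₁ < k₂ → 2 * k₂ ≤ Fintype.card C → 0 ≤ p → p ≤ 1 →
      (∀ (Ω₁ Ω Ω₂ : Type) [MeasurableSpace Ω₁] [MeasurableSpace Ω] [MeasurableSpace Ω₂]
          (P₁ : Measure Ω₁) (P : Measure Ω) (P₂ : Measure Ω₂)
          (S₁ : ℕ → Ω₁ → Finset C) (S : ℕ → Ω → Finset C) (S₂ : ℕ → Ω₂ → Finset C),
          IsSampling P₁ (sizeOne k₁) S₁ → IsSampling P (sizeTwo k₁ k₂ p) S →
          IsSampling P₂ (sizeOne k₂) S₂ →
          ∫⁻ ω, recTime σ (fun i => S₂ i ω) ∂P₂ ≤ ∫⁻ ω, recTime σ (fun i => S i ω) ∂P ∧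
            ∫⁻ ω, recTime σ (fun i => S i ω) ∂P ≤ ∫⁻ ω, recTime σ (fun i => S₁ i ω) ∂P₁) ∧
        ∀ κ ∈ [sizeOne k₁, sizeTwo k₁ k₂ p, sizeOne k₂],
          ∃ (Ω : Type) (_ : MeasurableSpace Ω) (P : Measure Ω) (S : ℕ → Ω → Finset C),
            IsProbabilityMeasure P ∧ IsSampling P κ S := by
  intro C L _ _ _ σ k₁ k₂ p _ hk hn hp0 hp1
  refine ⟨fun Ω₁ Ω Ω₂ _ _ _ P₁ P P₂ S₁ S S₂ h₁ h h₂ =>
    main σ k₁ k₂ hk hn p hp0 hp1 P₁ P P₂ S₁ S S₂ h₁ h h₂, fun κ hκ => exists_sampling κ ?_⟩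
  simp only [List.mem_cons, List.not_mem_nil, or_false] at hκ
  rcases hκ with rfl | rfl | rfl
  · exact wt_one k₁ (by omega)
  · exact wt_two k₁ k₂ hk (by omega) p hp0 hp1
  · exact wt_one k₂ (by omega)

end Pool.Agent.Results.MP_c9564b_pr.MonotoneRecovery
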